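import Pool.Agent.Q20.AS.Near

/-!
# The lower end of the interval `(√(2n), 4 √(2n))`, for all multiples of `2n` simultaneously

On average there are about `C` primes `p` between `√m` and `√m + C log² m` with `m - p` prime. For every `C` and `J` there
are, of every size, even integers `2n` such that for none of the multiples `m = 2n, 4n, ..., 2Jn` the interval
`[√m, √m + C log² m]` contains a prime `p` with `m - p` prime; more generally for `k`-th roots instead of square roots.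
-/

set_option autoImplicit false

open Finset Filter

namespace Pool.Agent.Results.MP_b58c63_nt.MultiplesSimultaneously

/-- `p ≠ q` are primes with `p + q = m` -/
def Partition (m p q : ℕ) : Prop := p.Prime ∧ q.Prime ∧ p ≠ q ∧ p + q = m

/-- Let `k ≥ 2`, `J` and `C` be given. For all large `T` there is an `n` with `T ^ k ≤ 2n ≤ (2T) ^ k` such that for
all `m ∈ {2n, 4n, ..., 2Jn}` and all partitions `m = p + q` into distinct primes `|p - m ^ (1/k)| > C log² m`. In particular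
(`k = 2`) there are infinitely many `n` such that for all `m ∈ {2n, 4n, ..., 2Jn}` there is no partition `m = p + q`
into distinct primes with `√m < p < √m + C log² m`. -/
theorem result :
    (∀ (k J : ℕ) (C : ℝ), 2 ≤ k → ∃ T₀ : ℕ, ∀ T : ℕ, T₀ ≤ T → ∃ n : ℕ, T ^ k ≤ 2 * n ∧ 2 * n ≤ (2 * T) ^ k ∧
      ∀ j : ℕ, 1 ≤ j → j ≤ J → ∀ p q : ℕ, Partition (j * (2 * n)) p q →
        C * Real.log ((j * (2 * n) : ℕ) : ℝ) ^ 2 < |(p : ℝ) - ((j * (2 * n) : ℕ) : ℝ) ^ (1 / (k : ℝ))|) ∧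
    (∀ (J : ℕ) (C : ℝ), {n : ℕ | ∀ j : ℕ, 1 ≤ j → j ≤ J → ∀ p q : ℕ, Partition (j * (2 * n)) p q →
      ¬ (√((j * (2 * n) : ℕ) : ℝ) < p ∧
        (p : ℝ) < √((j * (2 * n) : ℕ) : ℝ) + C * Real.log ((j * (2 * n) : ℕ) : ℝ) ^ 2)}.Infinite) := by
  have h1 : ∀ (k J : ℕ) (C : ℝ), 2 ≤ k → ∃ T₀ : ℕ, ∀ T : ℕ, T₀ ≤ T → ∃ n : ℕ, T ^ k ≤ 2 * n ∧
      2 * n ≤ (2 * T) ^ k ∧ ∀ j : ℕ, 1 ≤ j → j ≤ J → ∀ p q : ℕ, Partition (j * (2 * n)) p q →
        C * Real.log ((j * (2 * n) : ℕ) : ℝ) ^ 2 < |(p : ℝ) - ((j * (2 * n) : ℕ) : ℝ) ^ (1 / (k : ℝ))| := by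
    intro k J C hk
    obtain ⟨T₀, h⟩ := Pool.Agent.Q20.AS.nearRoots k J hk {1} (by simp) (4 * max C 0)
    refine ⟨T₀ + J + 2, fun T hT => ?_⟩
    obtain ⟨N, hev, hN1, hN2, h3⟩ := h T (by omega)
    obtain ⟨n, hn⟩ := hev
    have hn2 : N = 2 * n := by omega
    subst hn2
    refine ⟨n, hN1, hN2, fun j hj1 hjJ p q hpq => ?_⟩
    obtain ⟨hp, hq, -, hs⟩ := hpq
    by_contra hcon
    push Not at hcon
    refine h3 j hj1 hjJ 1 (by simp) p hp ?_ (by rw [← hs, Nat.add_sub_cancel_left]; exact hq)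
    rw [one_mul]
    refine hcon.trans ?_
    -- `log (j N) ≤ 2 log N`
    have hTN : T ≤ 2 * n := by
      calc T = T ^ 1 := (pow_one T).symm
        _ ≤ T ^ k := Nat.pow_le_pow_right (by omega) (by omega)
        _ ≤ 2 * n := hN1
    have hjN : j ≤ 2 * n := by omega
    have hN0 : (0 : ℝ) < ((2 * n : ℕ) : ℝ) := by exact_mod_cast (by omega : 0 < 2 * n)
    have hj0 : (0 : ℝ) < ((j * (2 * n) : ℕ) : ℝ) := by
      have : 0 < j * (2 * n) := Nat.mul_pos hj1 (by omega)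
      exact_mod_cast this
    have e1 : Real.log ((j * (2 * n) : ℕ) : ℝ) ≤ 2 * Real.log ((2 * n : ℕ) : ℝ) := by
      have e2 : 2 * Real.log ((2 * n : ℕ) : ℝ) = Real.log (((2 * n : ℕ) : ℝ) ^ 2) := by
        rw [Real.log_pow]; push_cast; ring
      rw [e2]
      refine Real.log_le_log hj0 ?_
      have e3 : j * (2 * n) ≤ (2 * n) ^ 2 := by
        rw [sq]
        exact Nat.mul_le_mul_right _ hjN
      exact_mod_cast e3
    have e4 : 0 ≤ Real.log ((j * (2 * n) : ℕ) : ℝ) := Real.log_natCast_nonneg _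
    calc C * Real.log ((j * (2 * n) : ℕ) : ℝ) ^ 2 ≤ max C 0 * Real.log ((j * (2 * n) : ℕ) : ℝ) ^ 2 :=
          mul_le_mul_of_nonneg_right (le_max_left _ _) (by positivity)
      _ ≤ max C 0 * (2 * Real.log ((2 * n : ℕ) : ℝ)) ^ 2 :=
          mul_le_mul_of_nonneg_left (pow_le_pow_left₀ e4 e1 2) (le_max_right _ _)
      _ = 4 * max C 0 * Real.log ((2 * n : ℕ) : ℝ) ^ 2 := by ring
  refine ⟨h1, fun J C => ?_⟩
  obtain ⟨T₀, h⟩ := h1 2 J C le_rfl
  rw [Set.infinite_iff_exists_gt]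
  intro M
  obtain ⟨n, hn1, -, h3⟩ := h (T₀ + 2 * M + 2) (by omega)
  refine ⟨n, fun j hj1 hjJ p q hpq => ?_, ?_⟩
  · rintro ⟨h4, h5⟩
    have h6 := h3 j hj1 hjJ p q hpq
    have e : ((2 : ℕ) : ℝ) = 2 := by norm_num
    rw [e, ← Real.sqrt_eq_rpow, abs_of_pos (by linarith)] at h6
    linarith
  · have h7 := Nat.le_self_pow two_ne_zero (T₀ + 2 * M + 2)
    omega

end Pool.Agent.Results.MP_b58c63_nt.MultiplesSimultaneously
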