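import Pool.Agent.Q25.UReg6

/-!
# Patterns of `s` representations of every even number as a sum of two almost primes: the laws

The question asks, for every even `N`, for primes `p ≠ q` with `p + q = N` and `√N < p < 4 √N`.  Let `s ≥ 1`, `0 < η ≤ 1`,
`2 ≤ E`, `0 < θ`.  For EVERY large `X`, EVERY even `N` in `[X ^ 2, X ^ E]` and ALL shifts `w_1, ..., w_s ≤ N / 2` (multiples
of `(2s)!` with mutual distances `≥ X ^ η`; for `s = 1` one can take `w_1 = 0`) call `m` good if none of the `2s` numbers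
`m + w_i`, `N - (m + w_i)` has a prime factor `≤ X ^ (1/r)`: these are `s` representations of `N` at the distances
prescribed by the `w_i`.  In ALL intervals of length at least `X ^ θ` (for instance inside `(√N, 4 √N)`) the numbers of the
good `m` in windows follow the Poisson law and the gaps between the good `m` are exponentially distributed, and almost
all elements of an ARBITRARY set of good `m` (for instance of the `m` for which all `2s` numbers are prime) are regular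
points of this set.
-/

set_option autoImplicit false

namespace Pool.Agent.Results.MP_b58c63_nt.RepresentationPatterns

open Finset
open Pool.Agent.Q25.UReg (Good V count pois PoissonLaw GapLaw N RightOrder ConstantDensity badScales Irregular)

/-- the coefficients of `m` in `m + w_i` (index `i < s`) and in `ν - w_i - m` (index `s + i`) -/
def co (s : ℕ) (i : Fin (2 * s)) : ℤ := if (i : ℕ) < s then 1 else -1

/-- the constant terms `w_i` (index `i < s`) and `ν - w_i` (index `s + i`) -/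
def ct (s ν : ℕ) (w : ℕ → ℕ) (i : Fin (2 * s)) : ℤ :=
  if (i : ℕ) < s then (w i : ℤ) else (ν : ℤ) - w ((i : ℕ) - s)

lemma co_ne (s : ℕ) (i : Fin (2 * s)) : co s i ≠ 0 := by
  unfold co
  split_ifs <;> norm_num

lemma adm (s ν : ℕ) (hν : Even ν) (w : ℕ → ℕ) (hw : ∀ i < s, (2 * s).factorial ∣ w i) (p : ℕ) (hp : p.Prime) :
    ∃ m : ℤ, ∀ i, ¬ (p : ℤ) ∣ co s i * m + ct s ν w i := by
  have hp1 : ¬ (p : ℤ) ∣ 1 := fun h => hp.one_lt.ne' (Nat.dvd_one.1 (by exact_mod_cast h))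
  rcases lt_or_ge (2 * s) p with h2 | h2
  · apply Pool.Agent.Q25.UReg.adm_small (co s) (ct s ν w) p hp h2
    intro i h
    have h3 := h.1
    unfold co at h3
    split_ifs at h3
    · exact hp1 h3
    · exact hp1 ((dvd_neg).1 h3)
  · have hpw : ∀ i < s, (p : ℤ) ∣ (w i : ℤ) := fun i hi => by
      exact_mod_cast ((Nat.dvd_factorial hp.pos h2).trans (hw i hi))
    have hm : ∃ m : ℤ, ¬ (p : ℤ) ∣ m ∧ ¬ (p : ℤ) ∣ m - ν := by
      rcases hp.two_le.lt_or_eq with h3 | h3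
      · obtain ⟨m, hm⟩ := Pool.Agent.Q25.UReg.adm_small (k := 2) ![1, 1] ![0, -(ν : ℤ)] p hp h3 (by
          intro i h
          fin_cases i
          · exact hp1 h.1
          · exact hp1 h.1)
        refine ⟨m, ?_, ?_⟩
        · have := hm 0
          simpa using this
        · have := hm 1
          simpa [sub_eq_add_neg] using this
      · subst h3
        obtain ⟨a, ha⟩ := hν
        refine ⟨1, ?_, ?_⟩
        · norm_num
        · omega
    obtain ⟨m, h3, h4⟩ := hm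
    refine ⟨m, fun i hi => ?_⟩
    have hil := i.isLt
    unfold co ct at hi
    split_ifs at hi with h5
    · apply h3
      have e : m = (1 * m + (w i : ℤ)) - (w i : ℤ) := by ring
      rw [e]
      exact dvd_sub hi (hpw _ h5)
    · apply h4
      have e : m - ν = -(-1 * m + ((ν : ℤ) - w ((i : ℕ) - s))) - (w ((i : ℕ) - s) : ℤ) := by ring
      rw [e]
      exact dvd_sub ((dvd_neg).2 hi) (hpw _ (by omega))

lemma two (s ν : ℕ) (w : ℕ → ℕ) (hs : 1 ≤ s) (hν : 1 ≤ ν) : Pool.Agent.Q25.UReg.TwoForms (co s) (ct s ν w) := by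
  refine ⟨⟨0, by omega⟩, ⟨s, by omega⟩, ?_, ?_⟩
  · rintro ⟨h, -⟩
    unfold co at h
    simp only [lt_irrefl, if_false] at h
    rw [if_pos (by omega)] at h
    norm_num at h
  · rintro ⟨-, h⟩
    unfold ct at h
    simp only [lt_irrefl, if_false, Nat.sub_self] at h
    rw [if_pos (by omega)] at h
    omega

lemma noTr (s ν : ℕ) (w : ℕ → ℕ) (U : ℝ) (hwν : ∀ i < s, 2 * w i ≤ ν) (hU : 2 * U < ν)
    (hd : ∀ i < s, ∀ j < s, i ≠ j → U < |(w i : ℝ) - w j|) :
    Pool.Agent.Q25.UReg.NoTranslates2 (co s) (ct s ν w) U := by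
  intro i j t ht htU
  have ht' : (1 : ℤ) ≤ t := by exact_mod_cast ht
  have htν : 2 * t < ν := by
    have h1 : (2 : ℝ) * t < ν := lt_of_le_of_lt (mul_le_mul_of_nonneg_left htU (by norm_num)) hU
    exact_mod_cast h1
  have hi := i.isLt
  have hj := j.isLt
  have key : ∀ a < s, ∀ b < s, ((w a : ℤ)) - w b ≠ t ∧ ((w a : ℤ)) - w b ≠ -(t : ℤ) := by
    intro a ha b hb
    rcases eq_or_ne a b with h1 | h1
    · subst h1
      constructor <;> omega
    · have h2 := hd a ha b hb h1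
      constructor
      · intro h3
        have h4 : (w a : ℝ) - w b = t := by exact_mod_cast h3
        rw [h4, abs_of_nonneg (by positivity)] at h2
        linarith
      · intro h3
        have h4 : (w a : ℝ) - w b = -(t : ℝ) := by exact_mod_cast h3
        rw [h4, abs_neg, abs_of_nonneg (by positivity)] at h2
        linarith
  unfold co ct
  split_ifs with h3 h4 h4
  · refine ⟨fun h => ?_, fun h => ?_⟩
    · have := h.2
      exact (key i h3 j h4).1 (by linarith)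
    · have := h.1
      omega
  · refine ⟨fun h => ?_, fun h => ?_⟩
    · have := h.1
      omega
    · have h5 := h.2
      have h6 := hwν ((j : ℕ) - s) (by omega)
      omega
  · refine ⟨fun h => ?_, fun h => ?_⟩
    · have := h.1
      omega
    · have h5 := h.2
      have h6 := hwν ((i : ℕ) - s) (by omega)
      omega
  · refine ⟨fun h => ?_, fun h => ?_⟩
    · have := h.2
      exact (key ((i : ℕ) - s) (by omega) ((j : ℕ) - s) (by omega)).1 (by linarith)
    · have := h.1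
      omega

lemma bounds (s ν X : ℕ) (w : ℕ → ℕ) (E : ℝ) (hE : 0 < E) (hX : 1 ≤ X) (hν : (ν : ℝ) ≤ (X : ℝ) ^ E)
    (hwν : ∀ i < s, 2 * w i ≤ ν) :
    (∀ i, |(co s i : ℝ)| ≤ (X : ℝ) ^ E) ∧ ∀ i, |(ct s ν w i : ℝ)| ≤ (X : ℝ) ^ E := by
  have hX1 : (1 : ℝ) ≤ X := by exact_mod_cast hX
  have h1 : (1 : ℝ) ≤ (X : ℝ) ^ E := Real.one_le_rpow hX1 hE.le
  constructor
  · intro i
    unfold co
    split_ifs
    · simpa using h1
    · simpa using h1
  · intro i
    have hi := i.isLt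
    unfold ct
    split_ifs with h3
    · have h4 := hwν i h3
      have h5 : (w i : ℝ) ≤ ν := by exact_mod_cast (by omega : w i ≤ ν)
      push_cast
      rw [abs_of_nonneg (by positivity)]
      linarith
    · have h4 := hwν ((i : ℕ) - s) (by omega)
      have h5 : (w ((i : ℕ) - s) : ℝ) ≤ ν := by exact_mod_cast (by omega : w ((i : ℕ) - s) ≤ ν)
      have h6 : (0 : ℝ) ≤ w ((i : ℕ) - s) := by positivity
      push_cast
      rw [abs_of_nonneg (by linarith)]
      linarith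

/-- **Patterns of `s` representations of every even number.** -/
theorem result (s : ℕ) (hs : 1 ≤ s) (E η θ : ℝ) (hE : 2 ≤ E) (hη : 0 < η) (hη1 : η ≤ 1) (hθ : 0 < θ) :
    (∀ (l₀ : ℕ) (x₀ ε : ℝ), 0 < ε → ∃ r₀ : ℕ, ∀ r : ℕ, r₀ ≤ r → ∃ X₀ : ℕ, ∀ X : ℕ, X₀ ≤ X →
      ∀ ν : ℕ, Even ν → X ^ 2 ≤ ν → (ν : ℝ) ≤ (X : ℝ) ^ E →
      ∀ w : ℕ → ℕ, (∀ i < s, (2 * s).factorial ∣ w i ∧ 2 * w i ≤ ν) →
        (∀ i < s, ∀ j < s, i ≠ j → (X : ℝ) ^ η ≤ |(w i : ℝ) - w j|) → ∀ Z Y : ℕ, (X : ℝ) ^ θ ≤ Y →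
        PoissonLaw (co s) (ct s ν w) r X Z Y x₀ ε ∧ GapLaw (co s) (ct s ν w) r X Z Y l₀ x₀ ε) ∧
    ∃ r₀ : ℕ, ∀ r : ℕ, r₀ ≤ r → ∀ ε : ℝ, 0 < ε → ∃ c : ℝ, 0 < c ∧ ∀ δ : ℝ, 0 < δ → ∃ B X₀ : ℕ,
      ∀ X : ℕ, X₀ ≤ X → ∀ ν : ℕ, Even ν → X ^ 2 ≤ ν → (ν : ℝ) ≤ (X : ℝ) ^ E →
      ∀ w : ℕ → ℕ, (∀ i < s, (2 * s).factorial ∣ w i ∧ 2 * w i ≤ ν) →
        ∀ u Y : ℕ, (X : ℝ) ^ θ ≤ Y → Y ≤ X → Y ≤ u →
        ∀ A : Set ℕ, (∀ m ∈ A, Good (co s) (ct s ν w) r X m) →
          (N (Irregular A (V (co s) (ct s ν w) r X) c δ B Y) u (u + Y) : ℝ) ≤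
            ε * (Y * V (co s) (ct s ν w) r X) := by
  constructor
  · intro l₀ x₀ ε hε
    obtain ⟨r₀, _, h⟩ := Pool.Agent.Q25.UReg.lin_laws2 (2 * s) E (η / 2) θ (by linarith) (by linarith) hθ l₀ x₀ ε hε
    refine ⟨r₀, fun r hr => ?_⟩
    obtain ⟨X₀, hX₀⟩ := Filter.eventually_atTop.1 ((h r hr).and (Filter.eventually_ge_atTop 3))
    refine ⟨X₀, fun X hX ν hν hν2 hνE w hw hd Z Y hY => ?_⟩
    obtain ⟨h1, h2⟩ := hX₀ X hX
    have hX1 : (1 : ℝ) < X := by exact_mod_cast (by omega : 1 < X)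
    have hU : (X : ℝ) ^ (η / 2) < (X : ℝ) ^ η := Real.rpow_lt_rpow_of_exponent_lt hX1 (by linarith)
    have hXη : (X : ℝ) ^ η ≤ X := by
      conv_rhs => rw [← Real.rpow_one (X : ℝ)]
      exact Real.rpow_le_rpow_of_exponent_le hX1.le hη1
    have hb := bounds s ν X w E (by linarith) (by omega) hνE (fun i hi => (hw i hi).2)
    have h9 : 2 * X < ν := by nlinarith
    have h10 : (2 : ℝ) * X < ν := by exact_mod_cast h9
    exact h1 (co s) (ct s ν w) (co_ne s) hb.1 hb.2 (adm s ν hν w (fun i hi => (hw i hi).1))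
      (two s ν w hs (by omega))
      (noTr s ν w _ (fun i hi => (hw i hi).2) (by linarith) (fun i hi j hj hij => lt_of_lt_of_le hU (hd i hi j hj hij)))
      Z Y hY
  · obtain ⟨r₀, _, h⟩ := Pool.Agent.Q25.UReg.lin_reg2 (2 * s) E θ (by linarith) hθ
    refine ⟨r₀, fun r hr ε hε => ?_⟩
    obtain ⟨c, hc, h1⟩ := h r hr ε hε
    refine ⟨c, hc, fun δ hδ => ?_⟩
    obtain ⟨B, hB⟩ := h1 δ hδ
    obtain ⟨X₀, hX₀⟩ := Filter.eventually_atTop.1 (hB.and (Filter.eventually_ge_atTop 3))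
    refine ⟨B, X₀, fun X hX ν hν hν2 hνE w hw u Y hXY hYX hYu A hA => ?_⟩
    obtain ⟨h1, h2⟩ := hX₀ X hX
    have hb := bounds s ν X w E (by linarith) (by omega) hνE (fun i hi => (hw i hi).2)
    have h9 : 2 * X < ν := by nlinarith
    exact h1 (co s) (ct s ν w) (co_ne s) hb.1 hb.2 (adm s ν hν w (fun i hi => (hw i hi).1))
      (two s ν w hs (by omega)) u Y hXY hYX hYu A hA

end Pool.Agent.Results.MP_b58c63_nt.RepresentationPatterns
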