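import Pool.Agent.Y816.PD.UniL

/-!
# `√N < m < 4 √N`, EVERY even `N`, every subwindow of length `N ^ δ`: `m` and `N - m` almost primes, `m` with restricted digits

The question asks, for every even `N`, for primes `p ≠ q` with `p + q = N` and `√N < p < 4 √N`. Let `E` be given (as large as
one likes), `b ≥ 2` a base and `K` a large number of digits. Let `N` be ANY even number with `N ≤ b ^ (E K)`, and let
`[u b ^ K, (u + 1) b ^ K)` be ANY interval of this kind contained in the window `(√N, 4 √N)`; so the length of the interval may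
be any fixed power `N ^ (1 / E)`. For `i < K` let `A i` be an arbitrary set of digits; the only condition is that the number
`|A 0| ⋯ |A (K - 1)|` of the integers `m` of the interval whose `i`-th digit belongs to `A i` for all `i < K` is at least
`exp (- c K) b ^ K`, `c > 0` depending only on `E`. Then the number of the `m` in the interval with these digits such that
both `m` and `N - m` have at most `r` prime factors, all greater than `b ^ (K / r)`, has the expected order of magnitude: it is
at least `κ V |A 0| ⋯ |A (K - 1)|`, unless there is an obvious obstruction (no digit `d` in `A 0` such that `d` and `N - d` are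
prime to `b`); and the number of those for which `m` and `N - m` are primes is at most `C V |A 0| ⋯ |A (K - 1)|`. Here `V` is
the product of the factors `1 - 1 / p` over the primes `p ≤ b ^ K` dividing `N` and of the factors `1 - 2 / p` over the other
primes `p ≤ b ^ K`. All constants are independent of `N`, of the interval and of the sets `A i`.

Proof. The theorem on almost prime values of polynomials at integers with restricted digits, uniform in the polynomial, of the
starting library (`Pool.Agent.Y816.PD.uni_fun`), applied to the polynomial `(a + X) (N - a - X)`, `a = u b ^ K`.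
-/

set_option autoImplicit false

namespace Pool.Agent.Results.MP_b58c63_nt.RestrictedDigitsEverySubwindow

open Filter Finset

/-- The `i`-th digit of `m` in base `b` (counted from the right, beginning with `0`) belongs to `A i` for all `i < K`. -/
def HasDigits (b K : ℕ) (A : ℕ → Finset ℕ) (m : ℕ) : Prop := ∀ i < K, m / b ^ i % b ∈ A i

/-- The number of the choices of `K` digits in the sets `A i`. -/
def choices (K : ℕ) (A : ℕ → Finset ℕ) : ℕ := ∏ i ∈ range K, (A i).card

/-- `m` has at most `r` prime factors (counted with multiplicity), and all of them are larger than `y ^ (1 / r)`. -/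
def AlmostPrime (y r m : ℕ) : Prop :=
  (∀ p : ℕ, p.Prime → p ∣ m → y < p ^ r) ∧ m.primeFactorsList.length ≤ r

/-- The product of `1 - 1 / p` over the primes `p ≤ y` dividing `N` and of `1 - 2 / p` over the other primes `p ≤ y`. -/
noncomputable def density (N y : ℕ) : ℝ :=
  ∏ p ∈ (Icc 1 y).filter Nat.Prime, (1 - (if p ∣ N then 1 else 2) / (p : ℝ))

open Classical in
/-- The number of the `m` with `u b ^ K ≤ m < (u + 1) b ^ K` whose last `K` digits belong to the sets `A i` and which have the
property `P`. -/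
noncomputable def count (b K u : ℕ) (A : ℕ → Finset ℕ) (P : ℕ → Prop) : ℕ :=
  ((Ico (u * b ^ K) ((u + 1) * b ^ K)).filter fun m => HasDigits b K A m ∧ P m).card

/-- the digits of `u b ^ K + n` below the place `K` are those of `n` -/
lemma digits_shift {b K u n i : ℕ} (hb : 0 < b) (hi : i < K) : (u * b ^ K + n) / b ^ i % b = n / b ^ i % b := by
  obtain ⟨j, rfl⟩ : ∃ j, K = i + (j + 1) := ⟨K - i - 1, by omega⟩
  have h1 : u * b ^ (i + (j + 1)) + n = b ^ i * (b * (u * b ^ j)) + n := by ring
  rw [h1, Nat.mul_add_div (Nat.pow_pos hb), Nat.mul_add_mod]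

lemma hasDigits_shift {b K u n : ℕ} {A : ℕ → Finset ℕ} (hb : 0 < b) :
    HasDigits b K A (u * b ^ K + n) ↔ HasDigits b K A n := by
  constructor
  · intro h i hi
    have := h i hi
    rwa [digits_shift hb hi] at this
  · intro h i hi
    rw [digits_shift hb hi]
    exact h i hi

lemma count_eq {b K u : ℕ} {A : ℕ → Finset ℕ} {P : ℕ → Prop} (hb : 0 < b) [DecidablePred P]
    [DecidablePred (HasDigits b K A)] :
    count b K u A P = ((range (b ^ K)).filter fun n => HasDigits b K A n ∧ P (u * b ^ K + n)).card := by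
  classical
  unfold count
  symm
  apply card_nbij' (fun n => u * b ^ K + n) (fun m => m - u * b ^ K)
  · intro n hn
    simp only [coe_filter, mem_range, Set.mem_ofPred_eq, mem_Ico] at hn ⊢
    refine ⟨⟨by omega, by rw [add_mul, one_mul]; omega⟩, (hasDigits_shift hb).2 hn.2.1, hn.2.2⟩
  · intro m hm
    simp only [coe_filter, mem_range, Set.mem_ofPred_eq, mem_Ico] at hm ⊢
    rw [add_mul, one_mul] at hm
    have h1 : u * b ^ K + (m - u * b ^ K) = m := by omega
    refine ⟨by omega, ?_, ?_⟩
    · rw [← hasDigits_shift (u := u) hb, h1]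
      exact hm.2.1
    · rw [h1]
      exact hm.2.2
  · intro n _
    simp
  · intro m hm
    simp only [coe_filter, Set.mem_ofPred_eq, mem_Ico] at hm
    simp only
    omega

lemma ND_le_count {g K u : ℕ} {A : ℕ → Finset ℕ} {S : Set ℕ} {P : ℕ → Prop} (hg : 0 < g)
    (h : ∀ n < g ^ K, n ∈ S → P (u * g ^ K + n)) :
    Pool.Agent.Y816.PD.ND g K A S ≤ count g K u A P := by
  classical
  rw [count_eq hg]
  unfold Pool.Agent.Y816.PD.ND
  apply card_le_card
  intro n hn
  have h1 := mem_filter.1 hn
  exact mem_filter.2 ⟨h1.1, h1.2.1, h n (mem_range.1 h1.1) h1.2.2⟩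

lemma count_le_ND {g K u : ℕ} {A : ℕ → Finset ℕ} {S : Set ℕ} {P : ℕ → Prop} (hg : 0 < g)
    (h : ∀ n < g ^ K, P (u * g ^ K + n) → n ∈ S) :
    count g K u A P ≤ Pool.Agent.Y816.PD.ND g K A S := by
  classical
  rw [count_eq hg]
  unfold Pool.Agent.Y816.PD.ND
  apply card_le_card
  intro n hn
  have h1 := mem_filter.1 hn
  exact mem_filter.2 ⟨h1.1, h1.2.1, h n (mem_range.1 h1.1) h1.2.2⟩

open Pool.Agent.Y816.PD in
lemma choices_eq (K : ℕ) (A : ℕ → Finset ℕ) : (choices K A : ℝ) = NA K A := by
  unfold choices NA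
  push_cast
  rfl

lemma card_roots {p N a : ℕ} (hp : p.Prime) :
    ((range p).filter (fun n : ℕ => (p : ℤ) ∣ ((a : ℤ) + n) * (N - (a + n)))).card = if p ∣ N then 1 else 2 := by
  have hpz := Nat.prime_iff_prime_int.1 hp
  have hp0 : 0 < p := hp.pos
  -- the two residues
  obtain ⟨s, hs⟩ : ∃ s : ℕ, s = ((-(a : ℤ)) % p).toNat := ⟨_, rfl⟩
  obtain ⟨t, ht⟩ : ∃ t : ℕ, t = (((N : ℤ) - a) % p).toNat := ⟨_, rfl⟩
  have hpz0 : (0 : ℤ) < p := by exact_mod_cast hp0
  have hs1 : (s : ℤ) = (-(a : ℤ)) % p := by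
    rw [hs, Int.toNat_of_nonneg (Int.emod_nonneg _ hpz0.ne')]
  have ht1 : (t : ℤ) = ((N : ℤ) - a) % p := by
    rw [ht, Int.toNat_of_nonneg (Int.emod_nonneg _ hpz0.ne')]
  have hsp : s < p := by
    have := Int.emod_lt_of_pos (-(a : ℤ)) hpz0
    rw [← hs1] at this
    exact_mod_cast this
  have htp : t < p := by
    have := Int.emod_lt_of_pos ((N : ℤ) - a) hpz0
    rw [← ht1] at this
    exact_mod_cast this
  have hsd : (p : ℤ) ∣ (a : ℤ) + s := by
    rw [hs1]
    have := Int.emod_add_mul_ediv (-(a : ℤ)) p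
    exact ⟨-(-(a : ℤ) / p), by linarith⟩
  have htd : (p : ℤ) ∣ (N : ℤ) - (a + t) := by
    rw [ht1]
    have := Int.emod_add_mul_ediv ((N : ℤ) - a) p
    exact ⟨((N : ℤ) - a) / p, by linarith⟩
  have uniq : ∀ x y : ℕ, x < p → y < p → (p : ℤ) ∣ (x : ℤ) - y → x = y := by
    intro x y hx hy hxy
    have h2 : ((x : ℤ) - y) = 0 := by
      apply Int.eq_zero_of_abs_lt_dvd hxy
      rw [abs_lt]
      constructor
      · have : (y : ℤ) < p := by exact_mod_cast hy
        have : (0 : ℤ) ≤ x := Int.natCast_nonneg _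
        omega
      · have : (x : ℤ) < p := by exact_mod_cast hx
        have : (0 : ℤ) ≤ y := Int.natCast_nonneg _
        omega
    omega
  have h1 : (range p).filter (fun n : ℕ => (p : ℤ) ∣ ((a : ℤ) + n) * (N - (a + n))) = {s, t} := by
    ext n
    rw [mem_filter, mem_range, mem_insert, mem_singleton]
    constructor
    · rintro ⟨h2, h3⟩
      rcases hpz.dvd_or_dvd h3 with h4 | h4
      · left
        apply uniq n s h2 hsp
        have := dvd_sub h4 hsd
        have e : (a : ℤ) + n - (a + s) = n - s := by ring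
        rwa [e] at this
      · right
        apply uniq n t h2 htp
        have := dvd_sub htd h4
        have e : (N : ℤ) - (a + t) - (N - (a + n)) = n - t := by ring
        rwa [e] at this
    · rintro (rfl | rfl)
      · exact ⟨hsp, Dvd.dvd.mul_right hsd _⟩
      · exact ⟨htp, Dvd.dvd.mul_left htd _⟩
  rw [h1]
  split_ifs with h2
  · have : s = t := by
      apply uniq s t hsp htp
      have h5 : (p : ℤ) ∣ (N : ℤ) := Int.natCast_dvd_natCast.2 h2
      have h6 := dvd_sub (dvd_add hsd htd) h5
      have e : (a : ℤ) + s + (N - (a + t)) - N = s - t := by ring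
      rwa [e] at h6
    rw [this]
    simp
  · rw [card_pair]
    rintro rfl
    apply h2
    have h6 := dvd_add hsd htd
    have e : (a : ℤ) + s + (N - (a + s)) = N := by ring
    rw [e] at h6
    exact Int.natCast_dvd_natCast.1 h6

open Pool.Agent.Y816.PD in
lemma density_eq (N a y : ℕ) : WG (fun n : ℕ => ((a : ℤ) + n) * (N - (a + n))) y = density N y := by
  classical
  unfold WG density
  apply prod_congr rfl
  intro p hp
  rw [mem_filter] at hp
  have h1 := card_roots (N := N) (a := a) hp.2
  have h2 : (((range p).filter (fun n : ℕ => (p : ℤ) ∣ ((a : ℤ) + n) * (N - (a + n)))).card : ℝ) =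
      if p ∣ N then 1 else 2 := by
    rw [h1]
    split_ifs <;> simp
  rw [← h2]

/-- **Every even number, every subwindow of the window `(√N, 4 √N)`, restricted digits.** -/
theorem result (E : ℕ) :
    ∃ c : ℝ, 0 < c ∧ ∃ r₀ : ℕ, 2 ≤ r₀ ∧ ∀ r : ℕ, r₀ ≤ r → ∀ b : ℕ, 2 ≤ b → ∃ κ C : ℝ, 0 < κ ∧ 0 < C ∧
      ∀ᶠ K : ℕ in atTop, ∀ N : ℕ, Even N → N ≤ b ^ (E * K) →
        ∀ u : ℕ, √(N : ℝ) < u * (b : ℝ) ^ K → (u + 1) * (b : ℝ) ^ K ≤ 4 * √(N : ℝ) →
        ∀ A : ℕ → Finset ℕ, (∀ i < K, A i ⊆ range b) → (b : ℝ) ^ K ≤ Real.exp (c * K) * choices K A →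
          ((∃ d ∈ A 0, d.Coprime b ∧ (N - d).Coprime b) →
            κ * density N (b ^ K) * choices K A ≤
              count b K u A fun m => AlmostPrime (b ^ K) r m ∧ AlmostPrime (b ^ K) r (N - m)) ∧
          (count b K u A (fun m => m.Prime ∧ (N - m).Prime) : ℝ) ≤
            C * density N (b ^ K) * choices K A := by
  classical
  obtain ⟨c, hc, r0, hr0, h⟩ := Pool.Agent.Y816.PD.uni_fun 2 (2 * E) (by norm_num)
  refine ⟨c, hc, r0, hr0, fun r hr b hb => ?_⟩
  obtain ⟨κ, C, hκ, hC, h1⟩ := h r hr b hb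
  refine ⟨κ, C, hκ, hC, ?_⟩
  filter_upwards [h1, eventually_ge_atTop (r + 6)] with K hK hK2
  intro N hN hN2 u hu1 hu2 A hA hprod
  have hb0 : 0 < b := by omega
  obtain ⟨a, ha⟩ : ∃ a : ℕ, a = u * b ^ K := ⟨_, rfl⟩
  obtain ⟨G, hG⟩ : ∃ G : ℕ → ℤ, G = fun n : ℕ => ((a : ℤ) + n) * (N - (a + n)) := ⟨_, rfl⟩
  have hbK : 1 ≤ b ^ K := Nat.one_le_pow _ _ hb0
  have hbb : b ≤ b ^ K := by
    calc b = b ^ 1 := (pow_one b).symm
      _ ≤ b ^ K := Nat.pow_le_pow_right hb0 (by omega)
  have h64 : 64 ≤ b ^ K := by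
    calc 64 = 2 ^ 6 := by norm_num
      _ ≤ b ^ 6 := Nat.pow_le_pow_left hb 6
      _ ≤ b ^ K := Nat.pow_le_pow_right hb0 (by omega)
  -- the window is far below `N / 2`
  have hs0 : (0 : ℝ) ≤ √(N : ℝ) := Real.sqrt_nonneg _
  have hss : √(N : ℝ) * √(N : ℝ) = N := Real.mul_self_sqrt (Nat.cast_nonneg _)
  have har : (a : ℝ) = u * (b : ℝ) ^ K := by rw [ha]; push_cast; ring
  have hbKr : (64 : ℝ) ≤ (b : ℝ) ^ K := by exact_mod_cast h64
  have hs16 : (16 : ℝ) ≤ √(N : ℝ) := by
    have : (0 : ℝ) ≤ (u : ℝ) * (b : ℝ) ^ K := by positivity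
    nlinarith
  have hend : (a : ℝ) + (b : ℝ) ^ K ≤ 4 * √(N : ℝ) := by rw [har]; linarith
  have hN4 : 4 * √(N : ℝ) ≤ N / 4 := by nlinarith
  have hend2 : 4 * (a + b ^ K) ≤ N := by
    have : (4 : ℝ) * ((a : ℝ) + (b : ℝ) ^ K) ≤ N := by linarith
    exact_mod_cast this
  have ha1 : 1 ≤ a := by
    by_contra hcon
    have : a = 0 := by omega
    rw [← har, this] at hu1
    push_cast at hu1
    linarith
  have hGnat : ∀ n : ℕ, a + n ≤ N → G n = (((a + n) * (N - (a + n)) : ℕ) : ℤ) := by
    intro n hn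
    rw [hG]
    push_cast [Nat.cast_sub hn]
    ring
  have h2r : 2 ^ r ≤ b ^ K :=
    (Nat.pow_le_pow_left hb r).trans (Nat.pow_le_pow_right hb0 (by omega))
  obtain ⟨hlow, hup⟩ := hK G ⟨(Polynomial.C (a : ℤ) + Polynomial.X) *
      (Polynomial.C (N : ℤ) - (Polynomial.C (a : ℤ) + Polynomial.X)), by
      refine (Polynomial.natDegree_mul_le).trans ?_
      have e1 : (Polynomial.C (a : ℤ) + Polynomial.X : Polynomial ℤ).natDegree ≤ 1 := by
        refine (Polynomial.natDegree_add_le _ _).trans ?_
        rw [Polynomial.natDegree_C]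
        exact max_le (by norm_num) Polynomial.natDegree_X_le
      have e2 : (Polynomial.C (N : ℤ) - (Polynomial.C (a : ℤ) + Polynomial.X) : Polynomial ℤ).natDegree ≤ 1 := by
        refine (Polynomial.natDegree_sub_le _ _).trans ?_
        rw [Polynomial.natDegree_C]
        exact max_le (by norm_num) e1
      omega, fun n => by rw [hG]; simp⟩
    (fun p hp => by
      obtain ⟨j, hj⟩ := Pool.Agent.Y816.PD.adm_gold (N := (N : ℤ)) (by exact_mod_cast hN) a p hp
      refine ⟨j, ?_⟩
      rw [hG]
      exact hj)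
    (fun n hn => by
      rw [hGnat n (by omega), Int.natAbs_natCast, show 2 * E * K = E * K + E * K by ring, pow_add]
      exact Nat.mul_le_mul (by omega) ((Nat.sub_le _ _).trans hN2))
    A hA (by rw [← choices_eq]; exact hprod)
  rw [hG, density_eq, ← choices_eq, ← hG] at hlow hup
  constructor
  · rintro ⟨d, hd, hd1, hd2⟩
    have hdb : d < b := by
      have := hA 0 (by omega) hd
      rwa [mem_range] at this
    have hab : b ∣ a := by
      rw [ha]
      exact Dvd.dvd.mul_left (dvd_pow_self b (by omega)) u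
    obtain ⟨a', ha'⟩ := hab
    have hc1 : (a + d).Coprime b := by
      rw [ha', Nat.coprime_mul_left_add_left]
      exact hd1
    have hc2 : (N - (a + d)).Coprime b := by
      have e : N - d = (N - (a + d)) + b * a' := by omega
      rw [e, Nat.coprime_add_mul_left_left] at hd2
      exact hd2
    have h3 := hlow ⟨d, hd, by
      rw [hGnat d (by omega), Int.natAbs_natCast]
      exact Nat.Coprime.mul_left hc1 hc2⟩
    rw [mul_right_comm]
    refine h3.trans (Nat.cast_le.2 ?_)
    refine ND_le_count hb0 fun n hn1 hn => ?_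
    obtain ⟨hn3, hn4⟩ := hn
    rw [← ha]
    have hn0 : a + n ≠ 0 := by omega
    have hNn : N - (a + n) ≠ 0 := by omega
    rw [hGnat n (by omega)] at hn3 hn4
    rw [Int.natAbs_natCast, (Nat.perm_primeFactorsList_mul hn0 hNn).length_eq, List.length_append] at hn4
    refine ⟨⟨fun p hp hpn => ?_, by omega⟩, fun p hp hpn => ?_, by omega⟩
    · exact hn3 p hp (Int.natCast_dvd_natCast.2 (hpn.mul_right _))
    · exact hn3 p hp (Int.natCast_dvd_natCast.2 (hpn.mul_left _))
  · rw [mul_right_comm]
    refine le_trans (Nat.cast_le.2 ?_) hup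
    refine count_le_ND hb0 fun n hn1 hn => ?_
    rw [← ha] at hn
    obtain ⟨hn3, hn4⟩ := hn
    intro p hp hpn
    rw [hGnat n (by omega), Int.natCast_dvd_natCast] at hpn
    have h5 : n ≤ p := by
      rcases (hp.dvd_mul).1 hpn with h6 | h6
      · rw [(Nat.prime_dvd_prime_iff_eq hp hn3).1 h6]
        omega
      · rw [(Nat.prime_dvd_prime_iff_eq hp hn4).1 h6]
        omega
    exact lt_of_le_of_lt h5 (lt_self_pow₀ hp.one_lt (by omega))

end Pool.Agent.Results.MP_b58c63_nt.RestrictedDigitsEverySubwindow
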