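import Pool.Agent.Q46.SL.Tools
import Pool.Agent.Q46.SL.Several

/-!
# Almost prime `x` and `η - x` (`x` between `√η` and `4 √η`) for an integer and its residues modulo several primes

The problem asks for different primes `x` and `η - x` with `√η < x < 4 √η`, for every even `η > 6`. Take `Q = p_1 ⋯ p_r` between
`2 √η` and `4 √η` (`B = 2`) and `N0 ≤ Q`; here `x < η - x` automatically. The theorem gives, for every even `η`, many almost
primes `x` with `η - x` almost prime such that the residues of `F_i(x)` modulo `p_i` have the same property with the same `η`.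

Let `p_1, ..., p_r` be different primes with large product `Q`, and let `F_i` be a polynomial of degree `2 ≤ deg ≤ d` or a reciprocal
`c / x` modulo `p_i`. In all boxes above a certain size there are many integers `x` such that ALL of `x` and the least residues of
`F_i(x)` modulo `p_i`, `i = 1, ..., r`, have the property. Here the property is: `x` and `η - x` have at most `R` prime factors, all larger than `Q ^ κ`.

In addition the numbers avoid arbitrary residue classes, at most `m` classes `E q` modulo each prime `q ≤ z`, as long as there is no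
local obstruction; `m = 0` is the case without classes. The exponent `κ`, the number `R` and the constant `cc` do not depend on the
classes.

Design and proof: helper46 (modules `Pool.Agent.Q46.SV.*`, `Pool.Agent.Q46.SL.*`): the vectors of the residues in question are
equidistributed modulo all small integers with a power saving, by bounds for exponential sums; the fundamental lemma of the
sieve is applied to the vectors.
-/

set_option autoImplicit false

namespace Pool.Agent.Results.MP_b58c63_nt.SeveralPrimeModuli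

open Finset Polynomial
open Pool.Agent.Q46.SL hiding Almost

/-- `n` is not zero and has at most `R` prime factors (counted with multiplicity), all larger than `z` -/
def Almost (z : ℝ) (R : ℕ) (n : ℤ) : Prop :=
  n ≠ 0 ∧ n.natAbs.primeFactorsList.length ≤ R ∧ ∀ q : ℕ, q.Prime → (q : ℤ) ∣ n → z < q

/-- `x` is positive, `x` and `η - x` have at most `R` prime factors, all larger than `z`, and `x` avoids the classes `E q`, `q ≤ z` -/
def Good (η : ℤ) (z : ℝ) (R : ℕ) (E : ℕ → Finset ℕ) (x : ℤ) : Prop :=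
  0 < x ∧ Almost z R (x) ∧ Almost z R (η - x) ∧ ∀ q : ℕ, q.Prime → (q : ℝ) ≤ z → (x % q).toNat ∉ E q

/-- `E q` has at most `m` elements, and some residue `a` outside `E q` makes none of the numbers `x`, `η - x` (`a` in the place of `x`) divisible by `q` -/
def Adm (η : ℤ) (m : ℕ) (E : ℕ → Finset ℕ) : Prop :=
  ∀ q : ℕ, q.Prime → (E q).card ≤ m ∧ ∃ a < q, a ∉ E q ∧ ¬ (q : ℤ) ∣ a ∧ ¬ (q : ℤ) ∣ η - a

/-- the polynomials and the classes -/
noncomputable def sysE (η : ℤ) (m : ℕ) (E : ℕ → Finset ℕ) (hE : Adm η m E) : PE 2 m 2 where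
  f := ![X, C η - X]
  E := E
  deg := by
    rw [Fin.sum_univ_two]
    simp only [Matrix.cons_val]
    have d0 : (X : ℤ[X]).natDegree ≤ 1 := by compute_degree
    have d1 : (C η - X : ℤ[X]).natDegree ≤ 1 := by compute_degree
    omega
  adm := by
    intro q hq
    obtain ⟨h1, a, ha, haE, h2, h3⟩ := hE q hq
    refine ⟨h1, a, ha, haE, fun j => ?_⟩
    fin_cases j
    · simpa using h2
    · simpa using h3

lemma good_of {η : ℤ} {m B : ℕ} {E : ℕ → Finset ℕ} (hE : Adm η m E) {κ M : ℝ} (hM : (2 : ℝ) ≤ M)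
    (hh : |(η : ℝ)| ≤ M ^ B) {x : ℤ} (h : Near (B + 1) (sysE η m E hE) κ M x) (hx : (x : ℝ) ≤ M) :
    Good η (M ^ κ) ⌊((B + 1 : ℕ) + (2 : ℕ) + 1 : ℝ) / κ⌋₊ E x := by
  obtain ⟨h0, h12⟩ := h
  obtain ⟨h1, h2⟩ := h12 (by
    intro j
    have hB : (1 : ℝ) ≤ M ^ B := one_le_pow₀ (by linarith)
    have hBM : (2 : ℝ) * M ^ B ≤ M ^ (B + 1) := by
      rw [pow_succ]
      nlinarith
    have k0 := hh
    fin_cases j
    · refine cb_mono (cb_X) ?_
      push_cast
      norm_num
      linarith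
    · refine cb_mono (cb_sub (cb_C η) (cb_X)) ?_
      push_cast
      norm_num
      linarith) hx
  refine ⟨h0, ?_, ?_, h2⟩
  · simpa [sysE, Almost, Pool.Agent.Q46.SL.Almost] using h1 0
  · simpa [sysE, Almost, Pool.Agent.Q46.SL.Almost] using h1 1

/-- the functions modulo `q`: polynomials, and reciprocals `c x⁻¹` -/
inductive Func (q : ℕ) : Type
  | poly (f : (ZMod q)[X]) : Func q
  | inv (c : (ZMod q)ˣ) : Func q

/-- the value (the reciprocal of `0` is `0`) -/
noncomputable def Func.value {q : ℕ} [Fact q.Prime] : Func q → ZMod q → ZMod q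
  | .poly f, x => f.eval x
  | .inv c, x => (c : ZMod q) * x⁻¹

/-- the degrees of the polynomials are between `2` and `d` -/
def Func.Ok {q : ℕ} (d : ℕ) : Func q → Prop
  | .poly f => 2 ≤ f.natDegree ∧ f.natDegree ≤ d
  | .inv _ => True

/-- For every even `η`, `x` and `η - x` are almost primes for an integer and for the residues of `F_i(x)` modulo several primes. -/
theorem result (B m : ℕ) (r d : ℕ) (ε : ℝ) (hε : 0 < ε) (hε1 : ε ≤ 1) :
    ∃ κ : ℝ, 0 < κ ∧ ∃ cc : ℝ, 0 < cc ∧ ∃ R Q₀ : ℕ,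
    ∀ p : Fin r → ℕ, ∀ [∀ i, Fact (p i).Prime], Function.Injective p → Q₀ ≤ ∏ i, p i → ∀ η : ℤ, |(η : ℝ)| ≤ ((∏ i, p i : ℕ) : ℝ) ^ B → ∀ E : ℕ → Finset ℕ, Adm η m E → ∀ F : ∀ i, Func (p i), (∀ i, (F i).Ok d) →
      ∀ (A₀ N₀ : ℕ) (A N : Fin r → ℕ), A₀ + N₀ ≤ ∏ i, p i → (∀ i, A i + N i ≤ p i) →
        ((∏ i, p i : ℕ) : ℝ) ^ ε ≤ N₀ → (∀ i, ((∏ i, p i : ℕ) : ℝ) ^ ε ≤ N i) →
        (∀ i, ((∏ i, p i : ℕ) : ℝ) ^ (2 + ε) ≤ (N₀ : ℝ) * (∏ i, (N i : ℝ)) * Real.sqrt (p i)) →
        ∃ G : Finset ℕ, cc * ((N₀ : ℝ) * (∏ i, (N i : ℝ)) / ((∏ i, p i : ℕ) : ℝ)) /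
            Real.log ((∏ i, p i : ℕ) : ℝ) ^ ((r + 1) * (m + 2)) ≤ G.card ∧
          ∀ x ∈ G, (A₀ ≤ x ∧ x < A₀ + N₀) ∧
          (∀ i, A i ≤ ((F i).value (x : ZMod (p i))).val ∧ ((F i).value (x : ZMod (p i))).val < A i + N i) ∧
          Good η (((∏ i, p i : ℕ) : ℝ) ^ κ) R E x ∧
          ∀ i, Good η (((∏ i, p i : ℕ) : ℝ) ^ κ) R E ((F i).value (x : ZMod (p i))).val := by
  have hK : (1 : ℝ) ≤ d + 3 := by
    have : (0 : ℝ) ≤ d := Nat.cast_nonneg _
    linarith
  obtain ⟨κ, hκ, cc, hcc, Q₀, h⟩ := Pool.Agent.Q46.SL.several (Near (B + 1) : PE 2 m 2 → ℝ → ℝ → ℤ → Prop)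
    (lg (m + 2)) (fun r _ => csN 2 m 2 (B + 1) r) r (d + 3) hK ε hε hε1
  obtain ⟨Q₁, hQ₁⟩ := ((tendsto_natCast_atTop_atTop (R := ℝ)).eventually
    ((tendsto_rpow_atTop hε).eventually_gt_atTop (d : ℝ))).exists_forall_of_atTop
  refine ⟨κ, hκ, cc, hcc, ⌊((B + 1 : ℕ) + (2 : ℕ) + 1 : ℝ) / κ⌋₊, max 2 (max Q₀ Q₁), ?_⟩
  intro p _ hp hpQ η t0 E hE F hF A₀ N₀ A N hA0 hA hN0 hN hP
  have hpr : (2 : ℝ) ≤ ((∏ i, p i : ℕ) : ℝ) := by exact_mod_cast (le_max_left _ _).trans hpQ
  have hQ0 : Q₀ ≤ ∏ i, p i := ((le_max_left _ _).trans (le_max_right _ _)).trans hpQ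
  have hQ1 : Q₁ ≤ ∏ i, p i := ((le_max_right _ _).trans (le_max_right _ _)).trans hpQ
  have hpos : 0 < ∏ i, p i := Finset.prod_pos fun i _ => (Fact.out : (p i).Prime).pos
  obtain ⟨G, hG, hG2⟩ := h p hp hQ0 (sysE η m E hE) (fun i => (F i).value) (by
    intro i a t ht
    have hs0 : 0 ≤ Real.sqrt (p i) := Real.sqrt_nonneg _
    have hD0 : (0 : ℝ) ≤ d := Nat.cast_nonneg _
    have hDp : d < p i := by
      have h2 := hQ₁ (∏ i, p i) hQ1
      have h3 := h2.trans_le (hN i)
      have h4 : d < N i := by exact_mod_cast h3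
      have := hA i
      omega
    have hok := hF i
    cases hj : F i with
    | poly f =>
      rw [hj] at hok
      obtain ⟨h2, h3⟩ := hok
      have h4 := Pool.Agent.Q46.MH.GG_poly f h2 (lt_of_le_of_lt h3 hDp) a t ht
      have h5 : (f.natDegree : ℝ) ≤ d := by exact_mod_cast h3
      exact le_trans h4 (mul_le_mul_of_nonneg_right (by linarith) hs0)
    | inv c =>
      exact le_trans (Pool.Agent.Q46.MH.GG_inv c a t ht) (mul_le_mul_of_nonneg_right (by linarith) hs0))
    A₀ N₀ A N hA0 hA hN0 hN hP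
  have hlog : 0 ≤ Real.log ((∏ i, p i : ℕ) : ℝ) := Real.log_natCast_nonneg _
  refine ⟨G, le_trans (cnt le_rfl (div_nonneg (mul_nonneg (Nat.cast_nonneg _)
    (prod_nonneg fun _ _ => Nat.cast_nonneg _)) (Nat.cast_nonneg _)) hlog _ _) hG, ?_⟩
  intro x hx
  obtain ⟨a1, a2, a3, a4⟩ := hG2 x hx
  refine ⟨a1, a2, good_of hE hpr t0 a3 ?_, fun i => good_of hE hpr t0 (a4 i) ?_⟩
  · exact_mod_cast (by omega : x ≤ ∏ i, p i)
  · have h6 : ((F i).value (x : ZMod (p i))).val < p i := ZMod.val_lt _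
    have h7 : p i ≤ ∏ i, p i := Nat.le_of_dvd hpos (dvd_prod_of_mem _ (mem_univ i))
    exact_mod_cast (by omega : ((F i).value (x : ZMod (p i))).val ≤ ∏ i, p i)

end Pool.Agent.Results.MP_b58c63_nt.SeveralPrimeModuli
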